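import Pool.Agent.H45.SHA.Stmts

/-!
# SHA, module TR0: triples of small height
-/

set_option autoImplicit false

namespace Pool.SHA

open Finset Pool.Agent.H98.ABCR

lemma tr0_rad_pos (n : ℕ) : 0 < rad n := by
  unfold rad
  exact Finset.prod_pos (fun p hp => (Nat.prime_of_mem_primeFactors hp).pos)

lemma tr0_rad_mul {m n : ℕ} (h : m.Coprime n) : rad (m * n) = rad m * rad n := by
  unfold rad
  rw [h.primeFactors_mul, Finset.prod_union h.disjoint_primeFactors]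

/-- pairs with small product of radicals -/
lemma tr0_pairs (N : ℕ) (Y S : ℝ) (hY : 0 ≤ Y)
    (hS : ∑ n ∈ Icc 1 N, (1 : ℝ) / rad n ≤ S) (P : Finset (ℕ × ℕ))
    (hP : ∀ x ∈ P, x.1 ∈ Icc 1 N ∧ x.2 ∈ Icc 1 N ∧ ((rad x.1 : ℝ) * rad x.2) ≤ Y) :
    (P.card : ℝ) ≤ Y * S ^ 2 := by
  have h0 : 0 ≤ ∑ n ∈ Icc 1 N, (1 : ℝ) / rad n :=
    Finset.sum_nonneg (fun n _ => by positivity)
  have h1 : (P.card : ℝ) ≤
      ∑ x ∈ P, Y * ((1 / (rad x.1 : ℝ)) * (1 / (rad x.2 : ℝ))) := by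
    have e : (P.card : ℝ) = ∑ x ∈ P, (1 : ℝ) := by simp
    rw [e]
    apply Finset.sum_le_sum
    intro x hx
    have a1 : (0 : ℝ) < rad x.1 := by exact_mod_cast tr0_rad_pos x.1
    have a2 : (0 : ℝ) < rad x.2 := by exact_mod_cast tr0_rad_pos x.2
    have e2 : Y * ((1 / (rad x.1 : ℝ)) * (1 / (rad x.2 : ℝ))) = Y / (rad x.1 * rad x.2) := by
      field_simp
    rw [e2, one_le_div (mul_pos a1 a2)]
    exact (hP x hx).2.2
  have h2 : ∑ x ∈ P, Y * ((1 / (rad x.1 : ℝ)) * (1 / (rad x.2 : ℝ))) ≤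
      ∑ x ∈ Icc 1 N ×ˢ Icc 1 N, Y * ((1 / (rad x.1 : ℝ)) * (1 / (rad x.2 : ℝ))) := by
    apply Finset.sum_le_sum_of_subset_of_nonneg
    · intro x hx
      rw [Finset.mem_product]
      exact ⟨(hP x hx).1, (hP x hx).2.1⟩
    · intro x _ _
      positivity
  have h3 : ∑ x ∈ Icc 1 N ×ˢ Icc 1 N, Y * ((1 / (rad x.1 : ℝ)) * (1 / (rad x.2 : ℝ))) =
      Y * (∑ n ∈ Icc 1 N, (1 : ℝ) / rad n) ^ 2 := by
    rw [← Finset.mul_sum, sq, Finset.sum_mul_sum, Finset.sum_product]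
  calc (P.card : ℝ) ≤ _ := h1
    _ ≤ _ := h2
    _ = Y * (∑ n ∈ Icc 1 N, (1 : ℝ) / rad n) ^ 2 := h3
    _ ≤ Y * S ^ 2 := by
      apply mul_le_mul_of_nonneg_left _ hY
      exact pow_le_pow_left₀ h0 hS 2

/-- one of the three products of two radicals is small -/
lemma tr0_min {a b c X : ℝ} (ha : 0 < a) (hb : 0 < b) (hc : 0 < c) (hX : a * b * c ≤ X) :
    a * b ≤ X ^ (2 / 3 : ℝ) ∨ a * c ≤ X ^ (2 / 3 : ℝ) ∨ b * c ≤ X ^ (2 / 3 : ℝ) := by
  by_contra hcon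
  push Not at hcon
  obtain ⟨h1, h2, h3⟩ := hcon
  have hX0 : 0 < X := lt_of_lt_of_le (by positivity) hX
  set Y := X ^ (2 / 3 : ℝ) with hY
  have hY0 : 0 < Y := Real.rpow_pos_of_pos hX0 _
  have hY3 : Y ^ 3 = X ^ 2 := by
    rw [hY, ← Real.rpow_natCast, ← Real.rpow_mul hX0.le, ← Real.rpow_natCast]
    norm_num
  have h4 : Y * Y * Y < (a * b) * (a * c) * (b * c) := by
    have := mul_lt_mul'' h1 h2 hY0.le hY0.le
    exact mul_lt_mul'' this h3 (by positivity) hY0.le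
  have h5 : (a * b) * (a * c) * (b * c) = (a * b * c) ^ 2 := by ring
  have h6 : (a * b * c) ^ 2 ≤ X ^ 2 := pow_le_pow_left₀ (by positivity) hX 2
  nlinarith

theorem tr0_thm (hSRD : S_SRD) : S_TR0 := by
  classical
  obtain ⟨C, hC, hS⟩ := hSRD
  refine ⟨2 * C, by linarith, ?_⟩
  intro X h F hX hh1 hF
  set N := ⌊Real.exp h⌋₊ with hN
  set S := Real.exp (C * Real.sqrt h) with hSd
  set Y := X ^ (2 / 3 : ℝ) with hYd
  have hY0 : 0 ≤ Y := Real.rpow_nonneg (by linarith) _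
  have hsum := hS h hh1
  -- membership
  have hmem : ∀ v ∈ F, v.1 ∈ Icc 1 N ∧ v.2 ∈ Icc 1 N ∧ v.1 + v.2 ∈ Icc 1 N := by
    intro v hv
    obtain ⟨⟨p1, p2, _⟩, _, h3⟩ := hF v hv
    have hle : v.1 + v.2 ≤ N := by
      rw [hN]
      apply Nat.le_floor
      have hpos : (0 : ℝ) < ((v.1 + v.2 : ℕ) : ℝ) := by exact_mod_cast (by omega : 0 < v.1 + v.2)
      have : Real.log ((v.1 + v.2 : ℕ) : ℝ) ≤ h := h3
      exact (Real.log_le_iff_le_exp hpos).1 this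
    simp only [Finset.mem_Icc]
    omega
  -- radicals
  have hrad : ∀ v ∈ F, (rad v.1 : ℝ) * rad v.2 * rad (v.1 + v.2) ≤ X := by
    intro v hv
    obtain ⟨⟨_, _, hc⟩, h2, _⟩ := hF v hv
    have c1 : (v.1 * v.2).Coprime (v.1 + v.2) := by
      apply Nat.Coprime.mul_left
      · simpa using hc
      · simpa [Nat.coprime_comm] using hc
    have e : RR v = rad v.1 * rad v.2 * rad (v.1 + v.2) := by
      unfold RR nn
      rw [tr0_rad_mul c1, tr0_rad_mul hc]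
    rw [e] at h2
    push_cast at h2
    exact h2
  have hcov : F ⊆ (F.filter fun v => (rad v.1 : ℝ) * rad v.2 ≤ Y) ∪
      ((F.filter fun v => (rad v.1 : ℝ) * rad (v.1 + v.2) ≤ Y) ∪
        (F.filter fun v => (rad v.2 : ℝ) * rad (v.1 + v.2) ≤ Y)) := by
    intro v hv
    have a1 : (0 : ℝ) < rad v.1 := by exact_mod_cast tr0_rad_pos v.1
    have a2 : (0 : ℝ) < rad v.2 := by exact_mod_cast tr0_rad_pos v.2
    have a3 : (0 : ℝ) < rad (v.1 + v.2) := by exact_mod_cast tr0_rad_pos (v.1 + v.2)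
    have := tr0_min a1 a2 a3 (hrad v hv)
    simp only [Finset.mem_union, Finset.mem_filter]
    tauto
  have key : ∀ (g : ℕ × ℕ → ℕ × ℕ), Function.Injective g → ∀ G : Finset (ℕ × ℕ),
      (∀ v ∈ G, (g v).1 ∈ Icc 1 N ∧ (g v).2 ∈ Icc 1 N ∧
        ((rad (g v).1 : ℝ) * rad (g v).2) ≤ Y) → (G.card : ℝ) ≤ Y * S ^ 2 := by
    intro g hg G hG
    rw [← Finset.card_image_of_injective G hg]
    apply tr0_pairs N Y S hY0 hsum
    intro x hx
    obtain ⟨v, hv, rfl⟩ := Finset.mem_image.1 hx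
    exact hG v hv
  have b1 : (((F.filter fun v => (rad v.1 : ℝ) * rad v.2 ≤ Y)).card : ℝ) ≤ Y * S ^ 2 := by
    apply key (fun v => v) (fun _ _ e => e)
    intro v hv
    rw [Finset.mem_filter] at hv
    exact ⟨(hmem v hv.1).1, (hmem v hv.1).2.1, hv.2⟩
  have b2 : (((F.filter fun v => (rad v.1 : ℝ) * rad (v.1 + v.2) ≤ Y)).card : ℝ) ≤ Y * S ^ 2 := by
    apply key (fun v => (v.1, v.1 + v.2))
    · intro v w e
      simp only [Prod.mk.injEq] at e
      ext <;> omega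
    · intro v hv
      rw [Finset.mem_filter] at hv
      exact ⟨(hmem v hv.1).1, (hmem v hv.1).2.2, hv.2⟩
  have b3 : (((F.filter fun v => (rad v.2 : ℝ) * rad (v.1 + v.2) ≤ Y)).card : ℝ) ≤ Y * S ^ 2 := by
    apply key (fun v => (v.2, v.1 + v.2))
    · intro v w e
      simp only [Prod.mk.injEq] at e
      ext <;> omega
    · intro v hv
      rw [Finset.mem_filter] at hv
      exact ⟨(hmem v hv.1).2.1, (hmem v hv.1).2.2, hv.2⟩
  have hcard := (Finset.card_le_card hcov).trans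
    ((Finset.card_union_le _ _).trans (Nat.add_le_add_left (Finset.card_union_le _ _) _))
  have hcard' : (F.card : ℝ) ≤ Y * S ^ 2 + (Y * S ^ 2 + Y * S ^ 2) := by
    have hc2 : (F.card : ℝ) ≤ (((F.filter fun v => (rad v.1 : ℝ) * rad v.2 ≤ Y).card +
        ((F.filter fun v => (rad v.1 : ℝ) * rad (v.1 + v.2) ≤ Y).card +
          (F.filter fun v => (rad v.2 : ℝ) * rad (v.1 + v.2) ≤ Y).card) : ℕ) : ℝ) :=
      Nat.cast_le.2 hcard
    rw [Nat.cast_add, Nat.cast_add] at hc2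
    linarith
  have hS2 : S ^ 2 = Real.exp (2 * C * Real.sqrt h) := by
    rw [hSd, ← Real.exp_nat_mul]
    congr 1
    push_cast
    ring
  rw [hS2] at hcard'
  calc (F.card : ℝ) ≤ _ := hcard'
    _ = 3 * Y * Real.exp (2 * C * Real.sqrt h) := by ring

end Pool.SHA
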